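import Pool.Agent.H514R4.Final3
import Pool.Agent.H399R5.TaskBL

/-! For every k there is a (k+1)-step interpolation set that is not a k-step interpolation set. -/

theorem Pool.Agent.Results.MP_1b26ca_an.StepsSeparate.result :
    ∀ k : ℕ, 1 ≤ k → ∃ E : Set ℕ, (∀ n ∈ E, 1 ≤ n) ∧ H514N.IsInterp (k + 1) E ∧ ¬ H514N.IsInterp k E :=
  fun k hk => H514N.final_seq H399R5.taskB_lit k hk
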